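import Pool.Agent.W2helper24.TQ.Stm2
import Pool.Agent.R431.B.Perr
import Pool.Agent.Y255.LT.LAT
import Pool.Agent.Y696.Hex

/-!
# Project TQ, piece H7: the real period of `y² = x³ - D²`
-/

set_option autoImplicit false

namespace Pool.Agent.W2helper68.TQ

open Pool.Agent.Y696 MeasureTheory Pool.Agent.W2helper24.TQ
open Pool.Agent.R431.B.Per (cubic)

/-- the curve `y² = x³ - D²` over the integers -/
def WD (D : ℕ) : WeierstrassCurve ℤ := ⟨0, 0, 0, 0, -(D : ℤ) ^ 2⟩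

lemma wd_b6 (D : ℕ) : (WD D).b₆ = -4 * (D : ℤ) ^ 2 := by
  simp only [WD, WeierstrassCurve.b₆]
  ring

lemma wd_c4 (D : ℕ) : (WD D).c₄ = 0 := by
  simp [WD, WeierstrassCurve.c₄, WeierstrassCurve.b₂, WeierstrassCurve.b₄]

lemma wd_c6 (D : ℕ) : (WD D).c₆ = 864 * (D : ℤ) ^ 2 := by
  simp only [WD, WeierstrassCurve.c₆, WeierstrassCurve.b₂, WeierstrassCurve.b₄,
    WeierstrassCurve.b₆]
  ring

lemma wd_Δ (D : ℕ) : (WD D).Δ = -432 * (D : ℤ) ^ 4 := by
  simp only [WD, WeierstrassCurve.Δ, WeierstrassCurve.b₂, WeierstrassCurve.b₄,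
    WeierstrassCurve.b₆, WeierstrassCurve.b₈]
  ring

lemma wd_cubic (D : ℕ) (x : ℝ) : cubic (WD D) x = 4 * (x ^ 3 - (D : ℝ) ^ 2) := by
  rw [cubic, wd_b6]
  simp only [WD, WeierstrassCurve.b₂, WeierstrassCurve.b₄]
  push_cast
  ring

/-- the shape of the lattice -/
lemma shape {D : ℕ} (hD : 0 < D) {L : PeriodPair} (h2 : L.g₂ = 0) (h3 : L.g₃ = 4 * (D : ℂ) ^ 2) :
    ∃ Op Om : ℝ, 0 < Op ∧ 0 < Om ∧
      (∀ w : ℂ, w ∈ L.lattice ↔ ∃ a b : ℤ, 2 ∣ a - b ∧ w = a * Op + b * Om * Complex.I) ∧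
      IsLeast {t : ℝ | 0 < t ∧ (t : ℂ) ∈ L.lattice} (2 * Op) := by
  have hD' : (0 : ℝ) < D := by exact_mod_cast hD
  obtain ⟨Op, Om, hOp, hOm, hlat⟩ := Pool.Agent.Y255.LAT.lat L 0 (4 * (D : ℝ) ^ 2)
    (by rw [h2]; simp) (by rw [h3]; push_cast; ring) (by
      have : 0 < (D : ℝ) ^ 4 := by positivity
      nlinarith)
  refine ⟨Op, Om, hOp, hOm, hlat, ⟨by positivity, ?_⟩, ?_⟩
  · refine (hlat _).2 ⟨2, 0, by norm_num, ?_⟩
    push_cast
    ring
  · rintro t ⟨ht0, ht⟩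
    obtain ⟨a, b, hab, h⟩ := (hlat _).1 ht
    have h1 := congrArg Complex.im h
    have h2 := congrArg Complex.re h
    simp at h1 h2
    have hb : b = 0 := by
      rcases h1 with h1 | h1
      · exact h1
      · exact absurd h1 hOm.ne'
    subst hb
    obtain ⟨k, hk⟩ := hab
    have ha : a = 2 * k := by linarith
    have hk0 : (0 : ℝ) < k := by
      by_contra hcon
      push Not at hcon
      rw [h2, ha] at ht0
      push_cast at ht0
      nlinarith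
    have hk1 : (1 : ℝ) ≤ k := by
      have : (0 : ℤ) < k := by exact_mod_cast hk0
      exact_mod_cast this
    rw [h2, ha]
    push_cast
    nlinarith

theorem piece : P_H7 := by
  intro D hD
  have hD' : (0 : ℝ) < D := by exact_mod_cast hD
  constructor
  · have h0 := hex_g3 1 one_ne_zero
    have hDc : (4 * (D : ℂ) ^ 2) ≠ 0 := by
      have : (D : ℂ) ≠ 0 := by exact_mod_cast hD.ne'
      exact mul_ne_zero (by norm_num) (pow_ne_zero 2 this)
    obtain ⟨Ω, hΩ⟩ := IsAlgClosed.exists_pow_nat_eq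
      ((hex 1 one_ne_zero).g₃ / (4 * (D : ℂ) ^ 2)) (n := 6) (by norm_num)
    have hΩ0 : Ω ≠ 0 := by
      rintro rfl
      rw [zero_pow (by norm_num)] at hΩ
      exact (div_ne_zero h0 hDc) hΩ.symm
    have h3 : (hex Ω hΩ0).g₃ = 4 * (D : ℂ) ^ 2 := by
      rw [hex_g3_scale hΩ0, hΩ]
      field_simp
    obtain ⟨Op, Om, -, -, -, h⟩ := shape hD (hex_g2 Ω hΩ0) h3
    exact ⟨hex Ω hΩ0, 2 * Op, hex_g2 Ω hΩ0, h3, h⟩
  · intro L ω h2 h3 hω
    obtain ⟨Op, Om, hOp, hOm, hlat, h⟩ := shape hD h2 h3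
    have hω' : ω = 2 * Op := hω.unique h
    have hΔ : (WD D).Δ < 0 := by
      rw [wd_Δ]
      have : (0 : ℤ) < (D : ℤ) ^ 4 := by positivity
      linarith
    have i1 := Pool.Agent.R431.B.Per.s_perr (WD D) hΔ L Op Om hOp hOm
      (by rw [h2, wd_c4]; simp) (by rw [h3, wd_c6]; push_cast; ring) hlat
    rw [hω', ← i1]
    congr 1
    have hset : {x : ℝ | 0 < cubic (WD D) x} = {x : ℝ | 0 < x ^ 3 - (D : ℝ) ^ 2} := by
      ext x
      simp only [Set.mem_ofPred_eq, wd_cubic]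
      constructor <;> intro h <;> linarith
    rw [hset]
    refine integral_congr_ae (Filter.Eventually.of_forall fun x => ?_)
    simp only [wd_cubic]
    congr 1
    rw [Real.sqrt_mul (by norm_num)]
    congr 1
    rw [show (4 : ℝ) = 2 ^ 2 by norm_num, Real.sqrt_sq (by norm_num)]

end Pool.Agent.W2helper68.TQ
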